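import Pool.Agent.V11294.BM.Main

/-!
# MP_3b55a2_co: log-concavity of the second-order ratios of the transposed Boros–Moll sequences
-/

set_option autoImplicit false

open Finset

namespace Pool.Agent.Results.MP_3b55a2_co.RatioLogConcave

/-- The Boros–Moll numbers
`d_ℓ(m) = 2^{-2m} ∑_{k=ℓ}^m 2^k C(2m-2k, m-k) C(m+k, m) C(k, ℓ)`. -/
def d (l m : ℕ) : ℚ :=
  (∑ k ∈ Icc l m,
    (2 : ℚ) ^ k * ((2 * m - 2 * k).choose (m - k) : ℚ) * ((m + k).choose m : ℚ) *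
      (k.choose l : ℚ)) / 2 ^ (2 * m)

/-- `x_ℓ(m) = d_ℓ(m-1) d_ℓ(m+1) / d_ℓ(m)²` (used for `m ≥ ℓ+1`) -/
def x (l m : ℕ) : ℚ := d l (m - 1) * d l (m + 1) / d l m ^ 2

/-- For every `ℓ ≥ 1` the sequence `(x_ℓ(m))_{m ≥ ℓ+1}` is log-concave. -/
theorem result : ∀ l m : ℕ, 1 ≤ l → l + 2 ≤ m →
    x l (m - 1) * x l (m + 1) ≤ x l m ^ 2 := by
  intro l m hl hm
  obtain ⟨n, rfl⟩ : ∃ n, m = l + n + 2 := ⟨m - (l + 2), by omega⟩
  have h := V11294.BM.bm_ineq l n hl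
  have a0 : 0 < d l (l + n) := V11294.BM.bm_pos l n
  have a1 : 0 < d l (l + n + 1) := V11294.BM.bm_pos l (n + 1)
  have a2 : 0 < d l (l + n + 2) := V11294.BM.bm_pos l (n + 2)
  have a3 : 0 < d l (l + n + 3) := V11294.BM.bm_pos l (n + 3)
  have a4 : 0 < d l (l + n + 4) := V11294.BM.bm_pos l (n + 4)
  change d l (l + n) * d l (l + n + 4) * d l (l + n + 2) ^ 6 ≤
      d l (l + n + 1) ^ 4 * d l (l + n + 3) ^ 4 at h
  unfold x
  rw [show l + n + 2 - 1 = l + n + 1 by omega, show l + n + 1 - 1 = l + n by omega,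
    show l + n + 2 + 1 = l + n + 3 by omega, show l + n + 3 - 1 = l + n + 2 by omega,
    show l + n + 1 + 1 = l + n + 2 by omega, show l + n + 3 + 1 = l + n + 4 by omega]
  generalize d l (l + n) = b0 at *
  generalize d l (l + n + 1) = b1 at *
  generalize d l (l + n + 2) = b2 at *
  generalize d l (l + n + 3) = b3 at *
  generalize d l (l + n + 4) = b4 at *
  have e : (b1 * b3 / b2 ^ 2) ^ 2 - b0 * b2 / b1 ^ 2 * (b2 * b4 / b3 ^ 2) =
      (b1 ^ 4 * b3 ^ 4 - b0 * b4 * b2 ^ 6) / (b1 ^ 2 * b2 ^ 4 * b3 ^ 2) := by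
    field_simp
  have : 0 ≤ (b1 * b3 / b2 ^ 2) ^ 2 - b0 * b2 / b1 ^ 2 * (b2 * b4 / b3 ^ 2) := by
    rw [e]
    apply div_nonneg (by linarith) (by positivity)
  linarith

end Pool.Agent.Results.MP_3b55a2_co.RatioLogConcave
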